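import Pool.Agent.H60MOD.Pow

/-!
MP_dd2d88, examples: the ring of power series in two variables over a subring, up to scaling of
the variables.
-/

set_option autoImplicit false

namespace Pool.Agent.H60MOD

open MvPowerSeries

universe u v

variable {k : Type u} [Field k] {A L : Type u} [CommRing A] [Algebra k A] [CommRing L] [Algebra k L]

/-- `f(y, z) ↦ (ι f)(u₀ y, u₁ z)` -/
noncomputable def phi (ι : A →ₐ[k] L) (u : Fin 2 → L) :
    MvPowerSeries (Fin 2) A →ₐ[k] MvPowerSeries (Fin 2) L where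
  toRingHom := (rescale u).comp (map ι.toRingHom)
  commutes' := by
    intro c
    show rescale u (map ι.toRingHom (algebraMap k _ c)) = algebraMap k _ c
    rw [MvPowerSeries.algebraMap_apply, map_C]
    ext n
    rw [coeff_rescale, MvPowerSeries.algebraMap_apply]
    by_cases h : n = 0
    · subst h
      simp
    · classical
      rw [coeff_C, coeff_C, if_neg h, if_neg h, mul_zero]

theorem coeff_phi (ι : A →ₐ[k] L) (u : Fin 2 → L) (f : MvPowerSeries (Fin 2) A)
    (n : Fin 2 →₀ ℕ) : coeff n (phi ι u f) = (n.prod fun s m => u s ^ m) * ι (coeff n f) := by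
  show coeff n (rescale u (map ι.toRingHom f)) = _
  rw [coeff_rescale, coeff_map]
  rfl

theorem isUnit_prod {u : Fin 2 → L} (hu : ∀ s, IsUnit (u s)) (n : Fin 2 →₀ ℕ) :
    IsUnit (n.prod fun s m => u s ^ m) := by
  rw [Finsupp.prod_fintype _ _ (fun s => pow_zero _)]
  rw [Fin.prod_univ_two]
  exact ((hu 0).pow _).mul ((hu 1).pow _)

theorem coeff_phi_eq_zero {ι : A →ₐ[k] L} (hι : Function.Injective ι) {u : Fin 2 → L}
    (hu : ∀ s, IsUnit (u s)) (f : MvPowerSeries (Fin 2) A) (n : Fin 2 →₀ ℕ) :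
    coeff n (phi ι u f) = 0 ↔ coeff n f = 0 := by
  rw [coeff_phi, (isUnit_prod hu n).mul_right_eq_zero]
  exact map_eq_zero_iff ι hι

theorem phi_injective {ι : A →ₐ[k] L} (hι : Function.Injective ι) {u : Fin 2 → L}
    (hu : ∀ s, IsUnit (u s)) : Function.Injective (phi ι u) := by
  rw [injective_iff_map_eq_zero]
  intro f hf
  ext n
  have h := (coeff_phi_eq_zero hι hu f n).1 (by rw [hf, map_zero])
  rw [h, map_zero]

/-- The chart as a power series ring. -/
noncomputable def chartEquiv {ι : A →ₐ[k] L} (hι : Function.Injective ι) {u : Fin 2 → L}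
    (hu : ∀ s, IsUnit (u s)) : MvPowerSeries (Fin 2) A ≃+* (phi ι u).range :=
  (AlgEquiv.ofInjective (phi ι u) (phi_injective hι hu)).toRingEquiv

theorem coe_chartEquiv {ι : A →ₐ[k] L} (hι : Function.Injective ι) {u : Fin 2 → L}
    (hu : ∀ s, IsUnit (u s)) (f : MvPowerSeries (Fin 2) A) :
    (chartEquiv hι hu f : MvPowerSeries (Fin 2) L) = phi ι u f := rfl

/-- The ideal of the series without constant term. -/
noncomputable abbrev aug0 (L : Type u) [CommRing L] : Ideal (MvPowerSeries (Fin 2) L) :=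
  RingHom.ker (constantCoeff (σ := Fin 2) (R := L))

theorem map_vars {ι : A →ₐ[k] L} (hι : Function.Injective ι) {u : Fin 2 → L}
    (hu : ∀ s, IsUnit (u s)) : (vars A).map (chartEquiv hι hu) =
      (aug0 L).comap (algebraMap (phi ι u).range (MvPowerSeries (Fin 2) L)) := by
  ext b
  rw [Ideal.mem_map_of_equiv, Ideal.mem_comap, RingHom.mem_ker]
  have key : ∀ f : MvPowerSeries (Fin 2) A, constantCoeff (phi ι u f) = 0 ↔ f ∈ vars A := by
    intro f
    rw [mem_vars_iff]
    exact coeff_phi_eq_zero hι hu f 0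
  constructor
  · rintro ⟨f, hf, rfl⟩
    exact (key f).2 hf
  · intro h
    obtain ⟨f, rfl⟩ := (chartEquiv hι hu).surjective b
    exact ⟨f, (key f).1 h, rfl⟩

theorem range_noetherian [IsNoetherianRing A] {ι : A →ₐ[k] L} (hι : Function.Injective ι)
    {u : Fin 2 → L} (hu : ∀ s, IsUnit (u s)) : IsNoetherianRing (phi ι u).range :=
  isNoetherianRing_of_ringEquiv (MvPowerSeries (Fin 2) A) (chartEquiv hι hu)

theorem range_complete {ι : A →ₐ[k] L} (hι : Function.Injective ι) {u : Fin 2 → L}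
    (hu : ∀ s, IsUnit (u s)) :
    IsAdicComplete ((aug0 L).comap (algebraMap (phi ι u).range (MvPowerSeries (Fin 2) L)))
      (phi ι u).range := by
  rw [← map_vars hι hu, IsAdicComplete.congr_ringEquiv]
  infer_instance

theorem range_pow {ι : A →ₐ[k] L} (hι : Function.Injective ι) {u : Fin 2 → L}
    (hu : ∀ s, IsUnit (u s)) (N : ℕ) (b : MvPowerSeries (Fin 2) L) (hb : b ∈ (phi ι u).range)
    (h : ∀ n : Fin 2 →₀ ℕ, n.degree < N → coeff n b = 0) :
    ∃ c ∈ ((aug0 L).comap (algebraMap (phi ι u).range (MvPowerSeries (Fin 2) L))) ^ N,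
      (c : MvPowerSeries (Fin 2) L) = b := by
  obtain ⟨f, rfl⟩ := hb
  refine ⟨chartEquiv hι hu f, ?_, rfl⟩
  rw [← map_vars hι hu, ← Ideal.map_pow]
  refine Ideal.mem_map_of_mem _ (mem_of_coeff_eq_zero N f fun n hn => ?_)
  exact (coeff_phi_eq_zero hι hu f n).1 (h n hn)

theorem aug0_eq_vars (L : Type u) [CommRing L] : aug0 L = vars L := by
  ext f
  rw [mem_vars_iff, RingHom.mem_ker]

theorem mem_aug0_pow (N : ℕ) (f : MvPowerSeries (Fin 2) L) :
    f ∈ aug0 L ^ N ↔ ∀ n : Fin 2 →₀ ℕ, n.degree < N → coeff n f = 0 := by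
  rw [aug0_eq_vars, mem_pow_iff]

end Pool.Agent.H60MOD
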