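import Pool.Agent.H60MOD.Sections
import Pool.Agent.DWX.Iff
import Pool.Agent.H15CV.Main

/-!
MP_dd2d88, examples: for the completion of the total space of `𝒪(-e₀) ⊕ 𝒪(-e₁)` both conditions
of the conjecture are equivalent to `e₀, e₁ ≥ 1`. The canonical bundle is trivial if and only if
`e₀ + e₁ = 2`; so among these Calabi-Yau threefolds exactly `e = (1, 1)` (the Atiyah flop) has a
contraction.
-/

set_option autoImplicit false

open LaurentPolynomial

universe u

namespace Pool.Agent.DWC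

variable {k : Type u} [Field k] {X : Nbhd k}

/-- A power of the ideal of `C` kills the iterated extensions of `𝒪_C` if `𝒪(-1)` is generated
outside `C` by global sections. -/
theorem pow_kills_of_iso (hX : X.Formal) (h : ∃ (s : Finset X.B) (N : ℕ),
    (s : Set X.B) ⊆ X.sections (-1) ∧ X.Generates s (-1) N) :
    ∃ N : ℕ, ∀ E : Sh X, (∃ n : ℕ, Loewy E 0 n) → ∀ c ∈ X.I ^ N, ∀ m : E.M, c • m = 0 := by
  obtain ⟨s, N, hs, hgen, -⟩ := h
  refine ⟨N, ?_⟩
  rintro E ⟨n, hE⟩ c hc m
  obtain ⟨ν, b', hb', h3⟩ := CV.exists_chart hX hE N _ hc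
  have h4 : (b' : X.B) • m = 0 := by
    have h5 : (b' : X.B) ∈ Submodule.span X.B₀ (s : Set X.B) := hgen ⟨b', hb', rfl⟩
    refine Submodule.span_induction (p := fun y _ => y • m = 0) ?_ ?_ ?_ ?_ h5
    · intro t ht
      exact CV.smul_eq_zero hE (hs ht) m
    · rw [zero_smul]
    · intro y z _ _ hy hz
      rw [add_smul, hy, hz, add_zero]
    · intro c y _ hy
      rw [Subalgebra.smul_def, smul_eq_mul, mul_smul, hy, smul_zero]
  have h6 := (h3 m).trans h4
  rw [mul_smul] at h6
  have h7 : ((X.x⁻¹ : X.Bˣ) : X.B) ^ ν • ((X.x : X.B) ^ ν • (c • m)) = 0 := by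
    rw [h6, smul_zero]
  rwa [smul_smul, ← mul_pow, Units.inv_mul, one_pow, one_smul] at h7

theorem finVersal_of_iso (hX : X.Formal) (h1 : X.Acyclic) (h : ∃ (s : Finset X.B) (N : ℕ),
    (s : Set X.B) ⊆ X.sections (-1) ∧ X.Generates s (-1) N) : FinVersal X := by
  obtain ⟨N, hN⟩ := pow_kills_of_iso hX h
  obtain ⟨s₀, -, h₀⟩ := fin_chart₀ hX N
  obtain ⟨s₁, -, h₁⟩ := fin_chart₁ hX N
  obtain ⟨Q, g, hQ⟩ := CV.exists_represents (fun b => by
    obtain ⟨b₀, hb₀, b₁, hb₁, hb⟩ := h1 b
    exact ⟨b₀, hb₀, b₁, hb₁, 0, Ideal.zero_mem _, by rw [hb, add_zero]⟩) hN h₀ h₁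
  exact finVersal_of_represents hQ

end Pool.Agent.DWC

namespace Pool.Agent.H60MOD

open Pool.Agent.DWC

variable {k : Type u} [Field k]

theorem finVersal_model (e : Fin 2 → ℤ) (he : ∀ s, 1 ≤ e s) : FinVersal (model k e) :=
  finVersal_of_iso (model_formal e)
    (acyclic_model e fun s => (by omega : (0 : ℤ) ≤ 1).trans (he s)) (iso_model e he)

theorem contracts_model_iff (e : Fin 2 → ℤ) : Contracts (model k e) ↔ ∀ s, 1 ≤ e s := by
  constructor
  · intro h s
    by_contra hs
    obtain ⟨t, N, ht, hg⟩ := h.iso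
    exact not_iso_model e s (by omega) t N ht hg
  · intro he
    exact contracts (model_formal e) (finVersal_model e he)

theorem finVersal_model_iff (e : Fin 2 → ℤ) : FinVersal (model k e) ↔ ∀ s, 1 ≤ e s :=
  ⟨fun h => (contracts_model_iff e).1 (contracts (model_formal e) h), finVersal_model e⟩

/-- The completion of the total space of `𝒪(-e₀) ⊕ 𝒪(-e₁)` along the zero section satisfies the
hypothesis of the theorem. -/
theorem model_isFormal (e : Fin 2 → ℤ) : (model k e).IsFormal :=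
  Nbhd.isFormal_iff.2 (model_formal e)

/-- The noncommutative deformation algebra of the zero section of `𝒪(-e₀) ⊕ 𝒪(-e₁)` has finite
dimension if and only if `e₀, e₁ ≥ 1`. -/
theorem finDimDef_model_iff (e : Fin 2 → ℤ) : (model k e).FinDimDef ↔ ∀ s, 1 ≤ e s := by
  rw [Nbhd.finDimDef_iff]
  exact finVersal_model_iff e

/-- The zero section of `𝒪(-e₀) ⊕ 𝒪(-e₁)` contracts to a point if and only if `e₀, e₁ ≥ 1`. -/
theorem contractsToPoint_model_iff (e : Fin 2 → ℤ) :
    (model k e).ContractsToPoint ↔ ∀ s, 1 ≤ e s := by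
  rw [Nbhd.contractsToPoint_iff_finDimDef (model_isFormal e)]
  exact finDimDef_model_iff e

end Pool.Agent.H60MOD
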