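import Pool.Agent.DWX.Contract
import Pool.Agent.H60DW.Chain
import Pool.Agent.H60MOD.Chart

/-!
MP_dd2d88, examples: the completions of the total spaces of the bundles `𝒪(-e₀) ⊕ 𝒪(-e₁)` on `ℙ¹`
along the zero section satisfy all the conditions of `Formal`.
-/

set_option autoImplicit false

open LaurentPolynomial

universe u

namespace Pool.Agent.H60MOD

open Pool.Agent.DWC

variable {k : Type u} [Field k]

theorem coeff_T_mul (f : k[T;T⁻¹]) (a b : ℤ) : (T a * f).coeff b = f.coeff (b - a) := by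
  have h : b = a + (b - a) := by ring
  conv_lhs => rw [h]
  exact (AddMonoidAlgebra.coeff_single_mul_add f (1 : k) a (b - a)).trans (one_mul _)

theorem reg0_iff (g : k[T;T⁻¹]) : g ∈ Reg0 k ↔ ∃ p : Polynomial k,
    Polynomial.toLaurentAlg p = g := by
  constructor
  · intro h
    obtain ⟨p, hp⟩ := Pool.Agent.H60DW.exists_poly h
    exact ⟨p, hp⟩
  · rintro ⟨p, rfl⟩ i hi
    rw [Polynomial.toLaurentAlg_apply, coeff_toLaurent]
    refine Finsupp.mapDomain_of_notMem_range _ _ ?_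
    rintro ⟨j, rfl⟩
    simp at hi
    omega

/-- Polynomials as Laurent polynomials in `T⁻¹`. -/
noncomputable def inv1 (k : Type u) [Field k] : Polynomial k →ₐ[k] k[T;T⁻¹] :=
  (invert (R := k)).toAlgHom.comp Polynomial.toLaurentAlg

theorem inv1_injective : Function.Injective (inv1 k) := by
  intro p q h
  exact Polynomial.toLaurent_injective ((invert (R := k)).injective h)

theorem regInf_iff (d : ℤ) (g : k[T;T⁻¹]) : g ∈ RegInf k d ↔ ∃ p : Polynomial k,
    T d * inv1 k p = g := by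
  constructor
  · intro h
    have h1 : invert (T (-d) * g) ∈ Reg0 k := by
      intro i hi
      rw [invert_apply, coeff_T_mul]
      exact h _ (by omega)
    obtain ⟨p, hp⟩ := (reg0_iff _).1 h1
    refine ⟨p, ?_⟩
    show T d * invert (Polynomial.toLaurentAlg p) = g
    rw [hp]
    have h2 : invert (invert (T (-d) * g)) = T (-d) * g := involutive_invert _
    rw [h2, ← mul_assoc, ← T_add, add_neg_cancel, T_zero, one_mul]
  · rintro ⟨p, rfl⟩ i hi
    rw [coeff_T_mul]
    show (invert (Polynomial.toLaurentAlg p)).coeff (i - d) = 0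
    rw [invert_apply]
    exact (reg0_iff _).2 ⟨p, rfl⟩ _ (by omega)

/-- `e₀ i + e₁ j`, for the exponents `(i, j)` -/
def wt (e : Fin 2 → ℤ) (n : Fin 2 →₀ ℕ) : ℤ := e 0 * n 0 + e 1 * n 1

theorem wt_zero (e : Fin 2 → ℤ) : wt e 0 = 0 := by simp [wt]

theorem prod_T (e : Fin 2 → ℤ) (n : Fin 2 →₀ ℕ) :
    (n.prod fun s m => (T (e s) : k[T;T⁻¹]) ^ m) = T (wt e n) := by
  rw [Finsupp.prod_fintype _ _ (fun s => pow_zero _), Fin.prod_univ_two, T_pow, T_pow, ← T_add,
    wt]
  congr 1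
  ring

/-- Functions on the chart `U₀`. -/
noncomputable def phi0 (k : Type u) [Field k] :=
  phi (Polynomial.toLaurentAlg (R := k)) (fun _ : Fin 2 => (1 : k[T;T⁻¹]))

/-- Functions on the chart `U₁`. -/
noncomputable def phi1 (k : Type u) [Field k] (e : Fin 2 → ℤ) :=
  phi (inv1 k) (fun s : Fin 2 => (T (e s) : k[T;T⁻¹]))

theorem range0 : {f : MvPowerSeries (Fin 2) k[T;T⁻¹] | ∀ n, f.coeff n ∈ Reg0 k} =
    ((phi0 k).range : Set (MvPowerSeries (Fin 2) k[T;T⁻¹])) := by
  ext f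
  constructor
  · intro hf
    choose p hp using fun n => (reg0_iff _).1 (hf n)
    refine ⟨fun n => p n, ?_⟩
    ext n : 1
    refine (coeff_phi _ _ _ _).trans ?_
    have h1 : (n.prod fun _ m => (1 : k[T;T⁻¹]) ^ m) = 1 := by simp [Finsupp.prod]
    rw [h1, one_mul]
    exact hp n
  · rintro ⟨f, rfl⟩ n
    have h1 : (n.prod fun _ m => (1 : k[T;T⁻¹]) ^ m) = 1 := by simp [Finsupp.prod]
    have h2 := coeff_phi (Polynomial.toLaurentAlg (R := k)) (fun _ : Fin 2 => (1 : k[T;T⁻¹])) f n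
    rw [h1, one_mul] at h2
    exact (reg0_iff _).2 ⟨_, h2.symm⟩

theorem range1 (e : Fin 2 → ℤ) :
    {f : MvPowerSeries (Fin 2) k[T;T⁻¹] | ∀ n, f.coeff n ∈ RegInf k (wt e n)} =
    ((phi1 k e).range : Set (MvPowerSeries (Fin 2) k[T;T⁻¹])) := by
  ext f
  constructor
  · intro hf
    choose p hp using fun n => (regInf_iff _ _).1 (hf n)
    refine ⟨fun n => p n, ?_⟩
    ext n : 1
    refine (coeff_phi _ _ _ _).trans ?_
    rw [prod_T]
    exact hp n
  · rintro ⟨f, rfl⟩ n
    have h2 := coeff_phi (inv1 k) (fun s : Fin 2 => (T (e s) : k[T;T⁻¹])) f n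
    rw [prod_T] at h2
    exact (regInf_iff _ _).2 ⟨_, h2.symm⟩

/-- The unit `T ^ d`. -/
noncomputable def unitT (k : Type u) [Field k] (d : ℤ) : k[T;T⁻¹]ˣ where
  val := T d
  inv := T (-d)
  val_inv := by rw [← T_add, add_neg_cancel, T_zero]
  inv_val := by rw [← T_add, neg_add_cancel, T_zero]

theorem coeff_C_T (d : ℤ) (n : Fin 2 →₀ ℕ) :
    MvPowerSeries.coeff n (MvPowerSeries.C (T d : k[T;T⁻¹])) = if n = 0 then T d else 0 := by
  classical
  rw [MvPowerSeries.coeff_C]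

/-- The completion of the total space of the bundle `𝒪(-e₀) ⊕ 𝒪(-e₁)` on `ℙ¹` along its zero
section: `y`, `z` are the fibre coordinates over `U₀`, and `T ^ e₀ y`, `T ^ e₁ z` are the fibre
coordinates over `U₁`. -/
noncomputable def model (k : Type u) [Field k] (e : Fin 2 → ℤ) : Nbhd k where
  B := MvPowerSeries (Fin 2) k[T;T⁻¹]
  B₀ := (phi0 k).range.copy {f | ∀ n, f.coeff n ∈ Reg0 k} range0
  B₁ := (phi1 k e).range.copy {f | ∀ n, f.coeff n ∈ RegInf k (wt e n)} (range1 e)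
  res :=
    { toRingHom := MvPowerSeries.constantCoeff
      commutes' := by
        intro c
        rw [MvPowerSeries.algebraMap_apply]
        exact MvPowerSeries.constantCoeff_C _ }
  x := Units.map (MvPowerSeries.C (σ := Fin 2)).toMonoidHom (unitT k 1)
  x_mem := by
    intro n
    show MvPowerSeries.coeff n (MvPowerSeries.C (T 1 : k[T;T⁻¹])) ∈ Reg0 k
    rw [coeff_C_T]
    intro i hi
    split_ifs
    · rw [T_apply, if_neg (by omega)]
    · rfl
  res_x := MvPowerSeries.constantCoeff_C _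
  w := Units.map (MvPowerSeries.C (σ := Fin 2)).toMonoidHom (unitT k (-1))
  w_mem := by
    intro n
    show MvPowerSeries.coeff n (MvPowerSeries.C (T (-1) : k[T;T⁻¹])) ∈ RegInf k (wt e n)
    rw [coeff_C_T]
    intro i hi
    split_ifs with h
    · rw [h, wt_zero] at hi
      rw [T_apply, if_neg (by omega)]
    · rfl
  res_w := MvPowerSeries.constantCoeff_C _
  res₀ := fun b hb => hb 0
  res₁ := fun b hb => by
    have h := hb 0
    rwa [wt_zero] at h

theorem model_B₀ (e : Fin 2 → ℤ) : (model k e).B₀ = (phi0 k).range :=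
  Subalgebra.copy_eq _ _ range0

theorem model_B₁ (e : Fin 2 → ℤ) : (model k e).B₁ = (phi1 k e).range :=
  Subalgebra.copy_eq _ _ (range1 e)

theorem model_I (e : Fin 2 → ℤ) : (model k e).I = aug0 k[T;T⁻¹] := rfl

theorem isUnit_one' (s : Fin 2) : IsUnit ((fun _ : Fin 2 => (1 : k[T;T⁻¹])) s) := isUnit_one

theorem isUnit_T' (e : Fin 2 → ℤ) (s : Fin 2) :
    IsUnit ((fun s : Fin 2 => (T (e s) : k[T;T⁻¹])) s) := isUnit_T _

theorem noeth₀ (e : Fin 2 → ℤ) : IsNoetherianRing (model k e).B₀ := by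
  rw [model_B₀]
  exact range_noetherian Polynomial.toLaurent_injective isUnit_one'

theorem noeth₁ (e : Fin 2 → ℤ) : IsNoetherianRing (model k e).B₁ := by
  rw [model_B₁]
  exact range_noetherian inv1_injective (isUnit_T' e)

theorem complete₀ (e : Fin 2 → ℤ) : (model k e).Complete₀ := by
  have key : ∀ S : Subalgebra k (MvPowerSeries (Fin 2) k[T;T⁻¹]), S = (phi0 k).range →
      IsAdicComplete ((aug0 k[T;T⁻¹]).comap (algebraMap S (MvPowerSeries (Fin 2) k[T;T⁻¹]))) S := by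
    rintro S rfl
    exact range_complete Polynomial.toLaurent_injective isUnit_one'
  exact key _ (model_B₀ e)

theorem complete₁ (e : Fin 2 → ℤ) : (model k e).Complete₁ := by
  have key : ∀ S : Subalgebra k (MvPowerSeries (Fin 2) k[T;T⁻¹]), S = (phi1 k e).range →
      IsAdicComplete ((aug0 k[T;T⁻¹]).comap (algebraMap S (MvPowerSeries (Fin 2) k[T;T⁻¹]))) S := by
    rintro S rfl
    exact range_complete inv1_injective (isUnit_T' e)
  exact key _ (model_B₁ e)

theorem complete (e : Fin 2 → ℤ) : IsAdicComplete (model k e).I (model k e).B := by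
  show IsAdicComplete (aug0 k[T;T⁻¹]) (MvPowerSeries (Fin 2) k[T;T⁻¹])
  rw [aug0_eq_vars]
  infer_instance

theorem exact₀ (e : Fin 2 → ℤ) : (model k e).Exact₀ := by
  intro N b hb hbN
  have key : ∀ S : Subalgebra k (MvPowerSeries (Fin 2) k[T;T⁻¹]), S = (phi0 k).range →
      b ∈ S → ∃ c ∈ ((aug0 k[T;T⁻¹]).comap
        (algebraMap S (MvPowerSeries (Fin 2) k[T;T⁻¹]))) ^ N,
      (c : MvPowerSeries (Fin 2) k[T;T⁻¹]) = b := by
    rintro S rfl hbS
    exact range_pow Polynomial.toLaurent_injective isUnit_one' N b hbS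
      ((mem_aug0_pow N b).1 hbN)
  obtain ⟨c, hc, hcb⟩ := key _ (model_B₀ e) hb
  refine ⟨0, c, hc, ?_⟩
  rw [pow_zero, one_mul]
  exact hcb

theorem exact₁ (e : Fin 2 → ℤ) : (model k e).Exact₁ := by
  intro N b hb hbN
  have key : ∀ S : Subalgebra k (MvPowerSeries (Fin 2) k[T;T⁻¹]), S = (phi1 k e).range →
      b ∈ S → ∃ c ∈ ((aug0 k[T;T⁻¹]).comap
        (algebraMap S (MvPowerSeries (Fin 2) k[T;T⁻¹]))) ^ N,
      (c : MvPowerSeries (Fin 2) k[T;T⁻¹]) = b := by
    rintro S rfl hbS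
    exact range_pow inv1_injective (isUnit_T' e) N b hbS ((mem_aug0_pow N b).1 hbN)
  obtain ⟨c, hc, hcb⟩ := key _ (model_B₁ e) hb
  refine ⟨0, c, hc, ?_⟩
  rw [pow_zero, one_mul]
  exact hcb

/-- Bounded support of a Laurent polynomial. -/
theorem exists_bound (f : k[T;T⁻¹]) : ∃ ν : ℕ, ∀ i : ℤ, (ν : ℤ) < |i| → f.coeff i = 0 := by
  classical
  refine ⟨(f.coeff.support.image fun i => i.natAbs).sup id, fun i hi => ?_⟩
  by_contra hne
  have h1 : i.natAbs ≤ (f.coeff.support.image fun i => i.natAbs).sup id :=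
    Finset.le_sup (f := id) (Finset.mem_image_of_mem _ (Finsupp.mem_support_iff.2 hne))
  rw [Int.abs_eq_natAbs] at hi
  omega

/-- The part of degree at least `N` of a power series. -/
noncomputable def tail {L : Type u} [CommRing L] (N : ℕ) (b : MvPowerSeries (Fin 2) L) :
    MvPowerSeries (Fin 2) L := fun n => if n.degree < N then 0 else -b.coeff n

theorem coeff_tail {L : Type u} [CommRing L] (N : ℕ) (b : MvPowerSeries (Fin 2) L)
    (n : Fin 2 →₀ ℕ) : (tail N b).coeff n = if n.degree < N then 0 else -b.coeff n := rfl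

theorem tail_mem {L : Type u} [CommRing L] (N : ℕ) (b : MvPowerSeries (Fin 2) L) :
    tail N b ∈ aug0 L ^ N :=
  (mem_aug0_pow N _).2 fun n hn => by rw [coeff_tail, if_pos hn]

theorem coeff_unit_pow_mul (d : ℤ) (ν : ℕ) (b : MvPowerSeries (Fin 2) k[T;T⁻¹])
    (n : Fin 2 →₀ ℕ) :
    ((MvPowerSeries.C (T d : k[T;T⁻¹])) ^ ν * b).coeff n = T (ν * d) * b.coeff n := by
  rw [← map_pow, MvPowerSeries.coeff_C_mul, T_pow]

theorem exists_bound_all (N : ℕ) (b : MvPowerSeries (Fin 2) k[T;T⁻¹]) : ∃ ν : ℕ,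
    ∀ n : Fin 2 →₀ ℕ, n.degree < N → ∀ i : ℤ, (ν : ℤ) < |i| → (b.coeff n).coeff i = 0 := by
  choose ν hν using fun n : Fin 2 →₀ ℕ => exists_bound (b.coeff n)
  refine ⟨(Finsupp.finite_of_degree_lt (σ := Fin 2) N).toFinset.sup ν, fun n hn i hi => ?_⟩
  have h1 : ν n ≤ (Finsupp.finite_of_degree_lt (σ := Fin 2) N).toFinset.sup ν :=
    Finset.le_sup (by simpa using hn)
  exact hν n i (by omega)

theorem loc₀ (e : Fin 2 → ℤ) : (model k e).Loc₀ := by
  intro N (b : MvPowerSeries (Fin 2) k[T;T⁻¹])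
  obtain ⟨ν, hν⟩ := exists_bound_all N b
  refine ⟨ν, tail N ((MvPowerSeries.C (T 1 : k[T;T⁻¹])) ^ ν * b), tail_mem N _, ?_⟩
  intro n
  show ((MvPowerSeries.C (T 1 : k[T;T⁻¹])) ^ ν * b +
    tail N ((MvPowerSeries.C (T 1 : k[T;T⁻¹])) ^ ν * b)).coeff n ∈ Reg0 k
  rw [map_add, coeff_tail]
  split_ifs with h
  · rw [add_zero, coeff_unit_pow_mul]
    intro i hi
    rw [coeff_T_mul]
    refine hν n h _ ?_
    rw [abs_of_neg (by omega)]
    omega
  · rw [add_neg_cancel]
    intro i _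
    rfl

theorem loc₁ (e : Fin 2 → ℤ) : (model k e).Loc₁ := by
  intro N (b : MvPowerSeries (Fin 2) k[T;T⁻¹])
  obtain ⟨ν, hν⟩ := exists_bound_all N b
  -- the twists which occur in degrees less than `N`
  obtain ⟨μ, hμ⟩ : ∃ μ : ℕ, ∀ n : Fin 2 →₀ ℕ, n.degree < N → -wt e n ≤ μ := by
    refine ⟨(Finsupp.finite_of_degree_lt (σ := Fin 2) N).toFinset.sup fun n => (wt e n).natAbs,
      fun n hn => ?_⟩
    have h1 : (wt e n).natAbs ≤ (Finsupp.finite_of_degree_lt (σ := Fin 2) N).toFinset.sup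
        fun n => (wt e n).natAbs :=
      Finset.le_sup (f := fun n => (wt e n).natAbs) (by simpa using hn)
    omega
  refine ⟨ν + μ, tail N ((MvPowerSeries.C (T (-1) : k[T;T⁻¹])) ^ (ν + μ) * b), tail_mem N _, ?_⟩
  intro n
  show ((MvPowerSeries.C (T (-1) : k[T;T⁻¹])) ^ (ν + μ) * b +
    tail N ((MvPowerSeries.C (T (-1) : k[T;T⁻¹])) ^ (ν + μ) * b)).coeff n ∈ RegInf k (wt e n)
  rw [map_add, coeff_tail]
  split_ifs with h
  · rw [add_zero, coeff_unit_pow_mul]
    intro i hi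
    rw [coeff_T_mul]
    have h2 := hμ n h
    refine hν n h _ ?_
    push_cast
    rw [abs_of_pos (by omega)]
    omega
  · rw [add_neg_cancel]
    intro i _
    rfl

/-- The completions of the total spaces of `𝒪(-e₀) ⊕ 𝒪(-e₁)` satisfy `Formal`. -/
theorem model_formal (e : Fin 2 → ℤ) : (model k e).Formal where
  noeth₀ := noeth₀ e
  noeth₁ := noeth₁ e
  noeth := by
    have h0 : IsNoetherianRing k[T;T⁻¹] :=
      IsLocalization.isNoetherianRing (Submonoid.powers (Polynomial.X : Polynomial k)) _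
        inferInstance
    have h : IsNoetherianRing (MvPowerSeries (Fin 2) k[T;T⁻¹]) := inferInstance
    exact h
  complete₀ := complete₀ e
  complete₁ := complete₁ e
  complete := complete e
  loc₀ := loc₀ e
  loc₁ := loc₁ e
  exact₀ := exact₀ e
  exact₁ := exact₁ e

end Pool.Agent.H60MOD
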