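import Mathlib

/-!
MP_dd2d88, examples: power series in two variables and the powers of the ideal of the variables.
-/

set_option autoImplicit false

namespace Pool.Agent.H60MOD

open MvPowerSeries

universe u v

variable {R : Type u} [CommRing R]

/-- The ideal of the variables. -/
noncomputable abbrev vars (R : Type u) [CommRing R] : Ideal (MvPowerSeries (Fin 2) R) :=
  Ideal.span (Set.range X)

theorem coeff_X_mul (s : Fin 2) (n : Fin 2 →₀ ℕ) (f : MvPowerSeries (Fin 2) R) :
    coeff n (X s * f) = if 1 ≤ n s then coeff (n - Finsupp.single s 1) f else 0 := by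
  rw [X_def, coeff_monomial_mul, one_mul]
  simp only [Finsupp.single_le_iff]

theorem coeff_eq_zero_of_mem (N : ℕ) : ∀ f ∈ vars R ^ N, ∀ n : Fin 2 →₀ ℕ, n.degree < N →
    coeff n f = 0 := by
  classical
  have h1 : ∀ f ∈ vars R, coeff (0 : Fin 2 →₀ ℕ) f = 0 := by
    intro f hf
    have h2 : vars R ≤ RingHom.ker (constantCoeff (σ := Fin 2) (R := R)) := by
      rw [Ideal.span_le]
      rintro _ ⟨s, rfl⟩
      exact constantCoeff_X s
    exact h2 hf
  induction N with
  | zero => intro f _ n hn; omega
  | succ N ih =>
    intro f hf n hn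
    rw [pow_succ'] at hf
    refine Submodule.mul_induction_on hf ?_ ?_
    · intro a ha b hb
      rw [coeff_mul]
      refine Finset.sum_eq_zero fun p hp => ?_
      replace hp := Finset.HasAntidiagonal.mem_antidiagonal.1 hp
      have hd : p.1.degree + p.2.degree = n.degree := by rw [← hp, map_add]
      rcases Nat.eq_zero_or_pos p.1.degree with h0 | h0
      · rw [Finsupp.degree_eq_zero_iff] at h0
        rw [h0, h1 a ha, zero_mul]
      · rw [ih b hb p.2 (by omega), mul_zero]
    · intro a b ha hb
      rw [map_add, ha, hb, add_zero]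

theorem mem_of_coeff_eq_zero (N : ℕ) : ∀ f : MvPowerSeries (Fin 2) R,
    (∀ n : Fin 2 →₀ ℕ, n.degree < N → coeff n f = 0) → f ∈ vars R ^ N := by
  classical
  induction N with
  | zero =>
    intro f _
    rw [pow_zero, Ideal.one_eq_top]
    trivial
  | succ N ih =>
    intro f hf
    let g₀ : MvPowerSeries (Fin 2) R := fun n => coeff (n + Finsupp.single 0 1) f
    let g₁ : MvPowerSeries (Fin 2) R := fun n =>
      if n 0 = 0 then coeff (n + Finsupp.single 1 1) f else 0
    have e₀ : ∀ n, coeff n g₀ = coeff (n + Finsupp.single 0 1) f := fun _ => rfl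
    have e₁ : ∀ n, coeff n g₁ = if n 0 = 0 then coeff (n + Finsupp.single 1 1) f else 0 :=
      fun _ => rfl
    have h0 : f = X 0 * g₀ + X 1 * g₁ := by
      ext n
      rw [map_add, coeff_X_mul, coeff_X_mul, e₀, e₁]
      by_cases h : 1 ≤ n 0
      · have h2 : (n - Finsupp.single 1 1 : Fin 2 →₀ ℕ) 0 ≠ 0 := by
          rw [Finsupp.tsub_apply, Finsupp.single_apply]
          simp
          omega
        rw [if_pos h, if_neg h2, ite_self, add_zero]
        congr 2
        exact (tsub_add_cancel_of_le (Finsupp.single_le_iff.2 h)).symm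
      · have hn0 : n 0 = 0 := by omega
        rw [if_neg h, zero_add]
        by_cases h' : 1 ≤ n 1
        · have h2 : (n - Finsupp.single 1 1 : Fin 2 →₀ ℕ) 0 = 0 := by
            rw [Finsupp.tsub_apply, hn0, Nat.zero_sub]
          rw [if_pos h', if_pos h2]
          congr 2
          exact (tsub_add_cancel_of_le (Finsupp.single_le_iff.2 h')).symm
        · rw [if_neg h']
          refine hf n ?_
          have hz : n = 0 := by
            ext i
            fin_cases i
            · exact hn0
            · show n 1 = 0
              omega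
          rw [hz, map_zero]
          omega
    rw [h0, pow_succ']
    refine add_mem (Ideal.mul_mem_mul (Ideal.subset_span ⟨0, rfl⟩) (ih _ fun n hn => ?_))
      (Ideal.mul_mem_mul (Ideal.subset_span ⟨1, rfl⟩) (ih _ fun n hn => ?_))
    · rw [e₀]
      exact hf _ (by rw [map_add, Finsupp.degree_single]; omega)
    · rw [e₁]
      split_ifs
      · exact hf _ (by rw [map_add, Finsupp.degree_single]; omega)
      · rfl

/-- A power series is in the `N`-th power of the ideal of the variables if and only if all its
coefficients of degree less than `N` vanish. -/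
theorem mem_pow_iff (N : ℕ) (f : MvPowerSeries (Fin 2) R) :
    f ∈ vars R ^ N ↔ ∀ n : Fin 2 →₀ ℕ, n.degree < N → coeff n f = 0 :=
  ⟨fun h => coeff_eq_zero_of_mem N f h, mem_of_coeff_eq_zero N f⟩

theorem mem_vars_iff (f : MvPowerSeries (Fin 2) R) : f ∈ vars R ↔ constantCoeff f = 0 := by
  rw [← pow_one (vars R), mem_pow_iff]
  constructor
  · intro h
    exact h 0 (by rw [map_zero]; omega)
  · intro h n hn
    have : n = 0 := (Finsupp.degree_eq_zero_iff n).1 (by omega)
    rw [this]
    exact h

end Pool.Agent.H60MOD
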