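import Pool.Agent.H60MOD.Model
import Pool.Agent.H15CV.Killed

/-!
MP_dd2d88, examples: for the completion of the total space of `𝒪(-e₀) ⊕ 𝒪(-e₁)`, when is `𝒪(-1)`
generated outside `C` by global sections?
-/

set_option autoImplicit false

open LaurentPolynomial

universe u

namespace Pool.Agent.H60MOD

open Pool.Agent.DWC

variable {k : Type u} [Field k]

theorem exists_parts {R : Type u} [CommRing R] (f : MvPowerSeries (Fin 2) R)
    (hf : f.coeff 0 = 0) : ∃ g : Fin 2 → MvPowerSeries (Fin 2) R,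
    f = MvPowerSeries.X 0 * g 0 + MvPowerSeries.X 1 * g 1 ∧
      ∀ s n, (g s).coeff n = f.coeff (n + Finsupp.single s 1) ∨ (g s).coeff n = 0 := by
  classical
  let g₀ : MvPowerSeries (Fin 2) R := fun n => f.coeff (n + Finsupp.single 0 1)
  let g₁ : MvPowerSeries (Fin 2) R := fun n =>
    if n 0 = 0 then f.coeff (n + Finsupp.single 1 1) else 0
  have e₀ : ∀ n, g₀.coeff n = f.coeff (n + Finsupp.single 0 1) := fun _ => rfl
  have e₁ : ∀ n, g₁.coeff n = if n 0 = 0 then f.coeff (n + Finsupp.single 1 1) else 0 :=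
    fun _ => rfl
  refine ⟨fun s => if s = 0 then g₀ else g₁, ?_, ?_⟩
  · show f = MvPowerSeries.X 0 * g₀ + MvPowerSeries.X 1 * g₁
    ext n : 1
    rw [map_add, coeff_X_mul, coeff_X_mul, e₀, e₁]
    by_cases h : 1 ≤ n 0
    · have h2 : (n - Finsupp.single 1 1 : Fin 2 →₀ ℕ) 0 ≠ 0 := by
        rw [Finsupp.tsub_apply, Finsupp.single_apply]
        simp
        omega
      rw [if_pos h, if_neg h2, ite_self, add_zero]
      congr 2
      exact (tsub_add_cancel_of_le (Finsupp.single_le_iff.2 h)).symm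
    · have hn0 : n 0 = 0 := by omega
      rw [if_neg h, zero_add]
      by_cases h' : 1 ≤ n 1
      · have h2 : (n - Finsupp.single 1 1 : Fin 2 →₀ ℕ) 0 = 0 := by
          rw [Finsupp.tsub_apply, hn0, Nat.zero_sub]
        rw [if_pos h', if_pos h2]
        congr 2
        exact (tsub_add_cancel_of_le (Finsupp.single_le_iff.2 h')).symm
      · rw [if_neg h']
        have hz : n = 0 := by
          ext i
          fin_cases i
          · exact hn0
          · show n 1 = 0
            omega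
        rw [hz, hf]
  · intro s n
    fin_cases s
    · exact Or.inl (e₀ n)
    · show g₁.coeff n = _ ∨ g₁.coeff n = 0
      rw [e₁]
      split_ifs
      · exact Or.inl rfl
      · exact Or.inr rfl

theorem wt_add_single (e : Fin 2 → ℤ) (n : Fin 2 →₀ ℕ) (s : Fin 2) :
    wt e (n + Finsupp.single s 1) = wt e n + e s := by
  unfold wt
  fin_cases s
  · simp
    ring
  · simp
    ring

theorem wt_single (e : Fin 2 → ℤ) (s : Fin 2) (m : ℕ) :
    wt e (Finsupp.single s m) = e s * m := by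
  unfold wt
  fin_cases s <;> simp

theorem regInf_mono {d d' : ℤ} (h : d ≤ d') {f : k[T;T⁻¹]} (hf : f ∈ RegInf k d) :
    f ∈ RegInf k d' := fun i hi => hf i (by omega)

theorem T_mul_regInf {d : ℤ} (c : ℤ) {f : k[T;T⁻¹]} (hf : f ∈ RegInf k d) :
    T c * f ∈ RegInf k (d + c) := by
  intro i hi
  rw [coeff_T_mul]
  exact hf _ (by omega)

theorem acyclic_model (e : Fin 2 → ℤ) (he : ∀ s, 0 ≤ e s) : (model k e).Acyclic := by
  intro (b : MvPowerSeries (Fin 2) k[T;T⁻¹])
  choose b₀ h₀ b₁ h₁ h using fun n => CV.exists_split (model k e) (b.coeff n)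
  let c₀ : MvPowerSeries (Fin 2) k[T;T⁻¹] := fun n => (model k e).res (b₀ n)
  let c₁ : MvPowerSeries (Fin 2) k[T;T⁻¹] := fun n => T (-1) * (model k e).res (b₁ n)
  refine ⟨c₀, fun n => (model k e).res₀ _ (h₀ n), c₁, fun n => ?_, ?_⟩
  · have h2 : T (-1) * (model k e).res (b₁ n) ∈ RegInf k (0 + -1) :=
      T_mul_regInf _ ((model k e).res₁ _ (h₁ n))
    refine regInf_mono ?_ h2
    have h3 : 0 ≤ e 0 * n 0 := mul_nonneg (he 0) (Nat.cast_nonneg _)
    have h4 : 0 ≤ e 1 * n 1 := mul_nonneg (he 1) (Nat.cast_nonneg _)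
    unfold wt
    omega
  · show b = c₀ + c₁
    ext n : 1
    exact h n

theorem w_neg (e : Fin 2 → ℤ) : (((model k e).w ^ (-1 : ℤ) : (model k e).Bˣ) : (model k e).B) =
    MvPowerSeries.C (T 1 : k[T;T⁻¹]) := by
  rw [zpow_neg_one]
  rfl

theorem w_pos (e : Fin 2 → ℤ) : (((model k e).w ^ (-(-1) : ℤ) : (model k e).Bˣ) :
    (model k e).B) = MvPowerSeries.C (T (-1) : k[T;T⁻¹]) := by
  rw [neg_neg, zpow_one]
  rfl

theorem coeff_X' (s : Fin 2) (n : Fin 2 →₀ ℕ) :
    (MvPowerSeries.X s : MvPowerSeries (Fin 2) k[T;T⁻¹]).coeff n =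
      if n = Finsupp.single s 1 then 1 else 0 := by
  classical
  exact MvPowerSeries.coeff_X n s

theorem reg0_T {d : ℤ} (hd : 0 ≤ d) : (T d : k[T;T⁻¹]) ∈ Reg0 k := by
  intro i hi
  rw [T_apply, if_neg (by omega)]

theorem regInf_T {d d' : ℤ} (hd : d ≤ d') : (T d : k[T;T⁻¹]) ∈ RegInf k d' := by
  intro i hi
  rw [T_apply, if_neg (by omega)]

/-- `T ^ d y_s` is a section of `𝒪(-1)` for `0 ≤ d < e_s`. -/
theorem section_mem (e : Fin 2 → ℤ) (s : Fin 2) (d : ℤ) (h0 : 0 ≤ d) (h1 : d + 1 ≤ e s) :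
    (MvPowerSeries.C (T d : k[T;T⁻¹]) * MvPowerSeries.X s : MvPowerSeries (Fin 2) k[T;T⁻¹]) ∈
      (model k e).sections (-1) := by
  refine ⟨fun n => ?_, ?_⟩
  · show (MvPowerSeries.C (T d : k[T;T⁻¹]) * MvPowerSeries.X s).coeff n ∈ Reg0 k
    rw [MvPowerSeries.coeff_C_mul, coeff_X']
    split_ifs
    · rw [mul_one]
      exact reg0_T h0
    · rw [mul_zero]
      intro i _
      rfl
  · rw [w_neg]
    intro n
    show (MvPowerSeries.C (T 1 : k[T;T⁻¹]) * (MvPowerSeries.C (T d : k[T;T⁻¹]) *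
      MvPowerSeries.X s)).coeff n ∈ RegInf k (wt e n)
    rw [MvPowerSeries.coeff_C_mul, MvPowerSeries.coeff_C_mul, coeff_X']
    split_ifs with h
    · rw [mul_one, ← T_add, h, wt_single]
      exact regInf_T (by push_cast; omega)
    · rw [mul_zero, mul_zero]
      intro i _
      rfl

theorem alg_parts {R : Type u} [CommRing R] {w x₀ x₁ g₀ g₁ a₀ a₁ d₀ d₁ : R} (h₀ : w = a₀ * d₀)
    (h₁ : w = a₁ * d₁) :
    w * (x₀ * g₀ + x₁ * g₁) = (a₀ * g₀) * (d₀ * x₀) + (a₁ * g₁) * (d₁ * x₁) := by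
  rw [mul_add]
  congr 1
  · rw [h₀]
    ring
  · rw [h₁]
    ring

theorem mem_of_eq' {α : Type u} {s : Set α} {a b : α} (h : a = b) (hb : b ∈ s) : a ∈ s :=
  h ▸ hb

/-- The line bundle `𝒪(-1)` is generated outside `C` if `e₀, e₁ ≥ 1`. -/
theorem iso_model (e : Fin 2 → ℤ) (he : ∀ s, 1 ≤ e s) : ∃ (s : Finset (model k e).B) (N : ℕ),
    (s : Set (model k e).B) ⊆ (model k e).sections (-1) ∧ (model k e).Generates s (-1) N := by
  classical
  let u : Fin 2 → MvPowerSeries (Fin 2) k[T;T⁻¹] := fun s =>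
    MvPowerSeries.C (T 0 : k[T;T⁻¹]) * MvPowerSeries.X s
  let v : Fin 2 → MvPowerSeries (Fin 2) k[T;T⁻¹] := fun s =>
    MvPowerSeries.C (T (e s - 1) : k[T;T⁻¹]) * MvPowerSeries.X s
  refine ⟨Finset.univ.image u ∪ Finset.univ.image v, 1, ?_, ?_, ?_⟩
  · intro t ht
    rcases Finset.mem_union.1 (Finset.mem_coe.1 ht) with h | h
    · obtain ⟨s, -, rfl⟩ := Finset.mem_image.1 h
      exact section_mem e s 0 le_rfl (by have := he s; omega)
    · obtain ⟨s, -, rfl⟩ := Finset.mem_image.1 h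
      exact section_mem e s _ (by have := he s; omega) (by omega)
  · rintro _ ⟨c, hc, rfl⟩
    obtain ⟨b, hb⟩ : ∃ b : MvPowerSeries (Fin 2) k[T;T⁻¹], b = (c : (model k e).B) := ⟨_, rfl⟩
    have hbB : ∀ n, b.coeff n ∈ Reg0 k := by
      intro n
      rw [hb]
      exact c.2 n
    have hc0 : b.coeff 0 = 0 := by
      rw [hb]
      have h2 : c ∈ (model k e).I₀ := by
        have h3 : c ∈ (model k e).I₀ ^ 1 := hc
        rwa [pow_one] at h3
      exact Nbhd.mem_I.1 h2
    obtain ⟨g, hg, hg2⟩ := exists_parts _ hc0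
    have hgB : ∀ s, g s ∈ (model k e).B₀ := by
      intro s n
      rcases hg2 s n with h | h
      · show (g s).coeff n ∈ Reg0 k
        rw [h]
        exact hbB _
      · show (g s).coeff n ∈ Reg0 k
        rw [h]
        intro i _
        rfl
    let g' : Fin 2 → (model k e).B := g
    let u' : Fin 2 → (model k e).B := u
    have hmem : ∀ s, g' s * u' s ∈ Submodule.span (model k e).B₀
        ((Finset.univ.image u ∪ Finset.univ.image v : Finset (model k e).B) :
          Set (model k e).B) := by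
      intro s
      refine Submodule.smul_mem _ (⟨g s, hgB s⟩ : (model k e).B₀) (Submodule.subset_span ?_)
      exact Finset.mem_coe.2 (Finset.mem_union_left _
        (Finset.mem_image_of_mem u (Finset.mem_univ s)))
    have h1 : (1 : MvPowerSeries (Fin 2) k[T;T⁻¹]) = 1 * MvPowerSeries.C (T 0 : k[T;T⁻¹]) := by
      rw [T_zero, map_one, mul_one]
    have h3 : b = (1 * g 0) * u 0 + (1 * g 1) * u 1 :=
      (hg.trans (one_mul _).symm).trans (alg_parts h1 h1)
    rw [one_mul, one_mul] at h3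
    exact mem_of_eq' (hb.symm.trans h3) (add_mem (hmem 0) (hmem 1))
  · rintro _ ⟨c, hc, rfl⟩
    obtain ⟨b, hb⟩ : ∃ b : MvPowerSeries (Fin 2) k[T;T⁻¹], b = (c : (model k e).B) := ⟨_, rfl⟩
    have hbB : ∀ n, b.coeff n ∈ RegInf k (wt e n) := by
      intro n
      rw [hb]
      exact c.2 n
    have hc0 : b.coeff 0 = 0 := by
      rw [hb]
      have h2 : c ∈ (model k e).I₁ := by
        have h3 : c ∈ (model k e).I₁ ^ 1 := hc
        rwa [pow_one] at h3
      exact Nbhd.mem_I.1 h2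
    obtain ⟨g, hg, hg2⟩ := exists_parts _ hc0
    have hgB : ∀ s, MvPowerSeries.C (T (-e s) : k[T;T⁻¹]) * g s ∈ (model k e).B₁ := by
      intro s n
      show (MvPowerSeries.C (T (-e s) : k[T;T⁻¹]) * g s).coeff n ∈ RegInf k (wt e n)
      rw [MvPowerSeries.coeff_C_mul]
      rcases hg2 s n with h | h
      · rw [h]
        have h4 : b.coeff (n + Finsupp.single s 1) ∈
            RegInf k (wt e (n + Finsupp.single s 1)) := hbB _
        have h5 := T_mul_regInf (-e s) h4
        rw [wt_add_single] at h5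
        exact regInf_mono (by omega) h5
      · rw [h, mul_zero]
        intro i _
        rfl
    have hmem : ∀ s, (MvPowerSeries.C (T (-e s) : k[T;T⁻¹]) * g s) * v s ∈
        Submodule.span (model k e).B₁
        ((Finset.univ.image u ∪ Finset.univ.image v : Finset (model k e).B) :
          Set (model k e).B) := by
      intro s
      refine Submodule.smul_mem _ (⟨_, hgB s⟩ : (model k e).B₁) (Submodule.subset_span ?_)
      exact Finset.mem_coe.2 (Finset.mem_union_right _
        (Finset.mem_image_of_mem v (Finset.mem_univ s)))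
    have hT : ∀ s, MvPowerSeries.C (σ := Fin 2) (T (-1) : k[T;T⁻¹]) =
        MvPowerSeries.C (T (-e s) : k[T;T⁻¹]) * MvPowerSeries.C (T (e s - 1)) := by
      intro s
      rw [← map_mul, ← T_add]
      congr 2
      ring
    have h3 : MvPowerSeries.C (T (-1) : k[T;T⁻¹]) * b =
        (MvPowerSeries.C (T (-e 0) : k[T;T⁻¹]) * g 0) * v 0 +
        (MvPowerSeries.C (T (-e 1) : k[T;T⁻¹]) * g 1) * v 1 :=
      (congrArg _ hg).trans (alg_parts (hT 0) (hT 1))
    have h4 : (((model k e).w ^ (-(-1) : ℤ) : (model k e).Bˣ) : (model k e).B) *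
        (c : (model k e).B) =
        MvPowerSeries.C (T (-1) : k[T;T⁻¹]) * b := by
      rw [w_pos, hb]
      rfl
    exact mem_of_eq' (h4.trans h3) (add_mem (hmem 0) (hmem 1))

theorem pure_mul {R : Type u} [CommRing R] (s : Fin 2) (c b : MvPowerSeries (Fin 2) R)
    (hb : ∀ m : ℕ, b.coeff (Finsupp.single s m) = 0) (m : ℕ) :
    (c * b).coeff (Finsupp.single s m) = 0 := by
  classical
  rw [MvPowerSeries.coeff_mul]
  refine Finset.sum_eq_zero fun p hp => ?_
  replace hp := Finset.HasAntidiagonal.mem_antidiagonal.1 hp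
  have h5 : p.2 = Finsupp.single s (p.2 s) := by
    ext i
    by_cases hi : i = s
    · rw [hi, Finsupp.single_eq_same]
    · have h6 := DFunLike.congr_fun hp i
      rw [Finsupp.add_apply, Finsupp.single_apply, if_neg (Ne.symm hi)] at h6
      rw [Finsupp.single_apply, if_neg (Ne.symm hi)]
      omega
  rw [h5, hb, mul_zero]

theorem pure_add {R : Type u} [CommRing R] (s : Fin 2) (a b : MvPowerSeries (Fin 2) R)
    (ha : ∀ m : ℕ, a.coeff (Finsupp.single s m) = 0)
    (hb : ∀ m : ℕ, b.coeff (Finsupp.single s m) = 0) (m : ℕ) :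
    (a + b).coeff (Finsupp.single s m) = 0 := by
  rw [map_add, ha, hb, add_zero]

/-- The line bundle `𝒪(-1)` is not generated outside `C` if `e_s ≤ 0` for some `s`. -/
theorem not_iso_model (e : Fin 2 → ℤ) (s : Fin 2) (he : e s ≤ 0) (t : Finset (model k e).B)
    (N : ℕ) (ht : (t : Set (model k e).B) ⊆ (model k e).sections (-1)) :
    ¬ (model k e).Generates t (-1) N := by
  classical
  rintro ⟨h0, -⟩
  -- the sections have no pure powers of `y_s`
  have key : ∀ b : MvPowerSeries (Fin 2) k[T;T⁻¹], b ∈ (model k e).sections (-1) →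
      ∀ m : ℕ, b.coeff (Finsupp.single s m) = 0 := by
    rintro b ⟨hb0, hb1⟩ m
    rw [w_neg] at hb1
    have h1 : b.coeff (Finsupp.single s m) ∈ Reg0 k := hb0 _
    have h2 : (MvPowerSeries.C (T 1 : k[T;T⁻¹]) * b).coeff (Finsupp.single s m) ∈
        RegInf k (wt e (Finsupp.single s m)) := hb1 _
    rw [MvPowerSeries.coeff_C_mul, wt_single] at h2
    apply LaurentPolynomial.ext
    intro i
    rcases lt_or_ge i 0 with hi | hi
    · rw [h1 i hi]
      rfl
    · have h3 : e s * (m : ℤ) ≤ 0 := mul_nonpos_of_nonpos_of_nonneg he (Nat.cast_nonneg m)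
      have h4 := h2 (i + 1) (by omega)
      rw [coeff_T_mul, add_sub_cancel_right] at h4
      rw [h4]
      rfl
  have hspan : ∀ b : MvPowerSeries (Fin 2) k[T;T⁻¹],
      b ∈ Submodule.span (model k e).B₀ (t : Set (model k e).B) →
      ∀ m : ℕ, b.coeff (Finsupp.single s m) = 0 := by
    intro b hb
    refine Submodule.span_induction (p := fun (b : (model k e).B) _ =>
      ∀ m : ℕ, (b : MvPowerSeries (Fin 2) k[T;T⁻¹]).coeff (Finsupp.single s m) = 0)
      ?_ ?_ ?_ ?_ hb
    · intro b hb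
      exact key b (ht hb)
    · intro m
      exact map_zero _
    · intro a b _ _ ha hb
      exact pure_add s a b ha hb
    · intro c b _ hb
      exact pure_mul s (c : (model k e).B) b hb
  have hX : (MvPowerSeries.X s : MvPowerSeries (Fin 2) k[T;T⁻¹]) ∈ (model k e).B₀ := by
    intro n
    show (MvPowerSeries.X s : MvPowerSeries (Fin 2) k[T;T⁻¹]).coeff n ∈ Reg0 k
    rw [coeff_X']
    split_ifs
    · rw [← T_zero]
      exact reg0_T le_rfl
    · intro i _
      rfl
  have hX1 : (MvPowerSeries.X s : MvPowerSeries (Fin 2) k[T;T⁻¹]) ∈ aug0 k[T;T⁻¹] :=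
    MvPowerSeries.constantCoeff_X s
  have hXI : (⟨_, hX⟩ : (model k e).B₀) ∈ (model k e).I₀ := hX1
  have hpow : (MvPowerSeries.X s : MvPowerSeries (Fin 2) k[T;T⁻¹]) ^ N ∈ (model k e).pow₀ N :=
    ⟨(⟨_, hX⟩ : (model k e).B₀) ^ N, Ideal.pow_mem_pow hXI N, rfl⟩
  have h7 := hspan _ (h0 hpow) N
  rw [MvPowerSeries.X_pow_eq, MvPowerSeries.coeff_monomial_same] at h7
  exact one_ne_zero h7

end Pool.Agent.H60MOD
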